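import Mathlib
import Pool.Agent.H4Q.Dvd22
import Pool.Agent.H4Q.Size22
import Pool.Agent.H4Q.Six

/-!
Integer points on the quartic `x^4 - x^2 + x y + y^3 = 0`: the seven known points, and the shape and
the size of the greatest common divisor of every other point.

A point with `x ≠ 0` has the form `x = a^2 e`, `y = a e b`. Modulo `a` and modulo `e` it is one of
the two points over the node at the origin. A polynomial in `x`, `y`, `y^2/x` of size `x^6` which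
vanishes to order 16 at the first point is divisible by `a^16`; at the second point a similar
argument gives a multiple of `e^4`. With `x^8`, `a^22` and `e^6` one gets the better exponents.
-/

set_option autoImplicit false

namespace Pool.Agent.Results.MP_8bb9f5_nt.GcdRange

/-- The parametrisation: `x = a^2 e`, `y = a e b`. -/
theorem param (x y : ℤ) (hx : x ≠ 0) (h : x ^ 4 - x ^ 2 + x * y + y ^ 3 = 0) :
    ∃ a e b : ℤ, 1 ≤ a ∧ e ≠ 0 ∧ IsCoprime a b ∧ IsCoprime a e ∧ x = a ^ 2 * e ∧ y = a * e * b ∧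
      e * b ^ 3 + b = a - a ^ 5 * e ^ 2 := by
  obtain ⟨g, a, b, hg, hxa, hyb, hab, ha⟩ : ∃ g a b : ℤ, g ≠ 0 ∧ x = g * a ∧ y = g * b ∧
      IsCoprime a b ∧ 1 ≤ a := by
    have hd : (Int.gcd x y : ℤ) ≠ 0 := by
      rw [Int.natCast_ne_zero]
      intro h0
      exact hx (Int.gcd_eq_zero_iff.1 h0).1
    obtain ⟨x', hx'⟩ := Int.gcd_dvd_left (a := x) (b := y)
    obtain ⟨y', hy'⟩ := Int.gcd_dvd_right (a := x) (b := y)
    have hco : IsCoprime x' y' := by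
      have hb := Int.gcd_eq_gcd_ab x y
      refine ⟨Int.gcdA x y, Int.gcdB x y, ?_⟩
      have h1 : (Int.gcd x y : ℤ) * (Int.gcdA x y * x' + Int.gcdB x y * y') =
          (Int.gcd x y : ℤ) * 1 := by
        calc (Int.gcd x y : ℤ) * (Int.gcdA x y * x' + Int.gcdB x y * y')
            = ((Int.gcd x y : ℤ) * x') * Int.gcdA x y +
              ((Int.gcd x y : ℤ) * y') * Int.gcdB x y := by
              ring
          _ = x * Int.gcdA x y + y * Int.gcdB x y := by rw [← hx', ← hy']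
          _ = (Int.gcd x y : ℤ) * 1 := by rw [← hb, mul_one]
      exact mul_left_cancel₀ hd h1
    rcases lt_trichotomy x' 0 with hn | hz | hp
    · refine ⟨-(Int.gcd x y : ℤ), -x', -y', neg_ne_zero.2 hd, ?_, ?_, ?_, by omega⟩
      · rw [neg_mul_neg]; exact hx'
      · rw [neg_mul_neg]; exact hy'
      · exact hco.neg_neg
    · rw [hz, mul_zero] at hx'
      exact absurd hx' hx
    · exact ⟨(Int.gcd x y : ℤ), x', y', hd, hx', hy', hco, by omega⟩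
  have h1 : g ^ 2 * a ^ 4 - a ^ 2 + a * b + g * b ^ 3 = 0 := by
    have : g ^ 2 * (g ^ 2 * a ^ 4 - a ^ 2 + a * b + g * b ^ 3) = 0 := by
      rw [hxa, hyb] at h
      linear_combination h
    rcases mul_eq_zero.1 this with h0 | h0
    · exact absurd (pow_eq_zero_iff (two_ne_zero)|>.1 h0) hg
    · exact h0
  have h2 : a ∣ g := by
    have : a ∣ g * b ^ 3 := ⟨-(g ^ 2 * a ^ 3 - a + b), by linear_combination h1⟩
    exact (hab.pow_right).dvd_of_dvd_mul_right this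
  obtain ⟨e, he⟩ := h2
  have h3 : e * b ^ 3 + b = a - a ^ 5 * e ^ 2 := by
    have : a * (e * b ^ 3 + b - (a - a ^ 5 * e ^ 2)) = 0 := by
      rw [he] at h1
      linear_combination h1
    rcases mul_eq_zero.1 this with h0 | h0
    · omega
    · linarith
  refine ⟨a, e, b, ha, ?_, hab, ?_, ?_, ?_, h3⟩
  · rintro rfl
    exact hg (by rw [he, mul_zero])
  · obtain ⟨u, v, huv⟩ := hab
    exact ⟨u + v - v * a ^ 4 * e ^ 2, -v * b ^ 3, by linear_combination huv - v * h3⟩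
  · rw [hxa, he]; ring
  · rw [hyb, he]

/-- The number `w = a^5 e + b^3` satisfies `e w = a - b`. -/
theorem ew {a e b : ℤ} (h : e * b ^ 3 + b = a - a ^ 5 * e ^ 2) :
    e * (a ^ 5 * e + b ^ 3) = a - b := by
  linear_combination h

/-- The product of two nonzero integers is at least their sum minus one. -/
theorem mul_ge {p q : ℤ} (hp : 1 ≤ p) (hq : 1 ≤ q) : p + q - 1 ≤ p * q := by
  nlinarith [mul_nonneg (sub_nonneg.2 hp) (sub_nonneg.2 hq)]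

/-- If `a ≠ b` then `|b|^3 ≤ 1 + a^5 |a - b|`. -/
theorem cube_le {a e b : ℤ} (ha : 1 ≤ a) (he : e ≠ 0) (hab : a ≠ b)
    (h : e * b ^ 3 + b = a - a ^ 5 * e ^ 2) : |b| ^ 3 ≤ 1 + a ^ 5 * |a - b| := by
  have hw := ew h
  have hw0 : a ^ 5 * e + b ^ 3 ≠ 0 := by
    intro h0
    rw [h0, mul_zero] at hw
    omega
  have h1 : 1 ≤ |a ^ 5 * e + b ^ 3| := Int.one_le_abs hw0
  have h2 : 1 ≤ |a ^ 5 * e| := Int.one_le_abs (mul_ne_zero (pow_ne_zero _ (by omega)) he)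
  have h3 : |b| ^ 3 ≤ |a ^ 5 * e + b ^ 3| + |a ^ 5 * e| := by
    rw [← abs_pow]
    calc |b ^ 3| = |(a ^ 5 * e + b ^ 3) - a ^ 5 * e| := by congr 1; ring
      _ ≤ |a ^ 5 * e + b ^ 3| + |a ^ 5 * e| := abs_sub _ _
  have h4 := mul_ge h1 h2
  have h5 : |a ^ 5 * e + b ^ 3| * |a ^ 5 * e| = a ^ 5 * |a - b| := by
    rw [← hw, abs_mul, abs_mul, abs_of_nonneg (by positivity : (0 : ℤ) ≤ a ^ 5)]
    ring
  linarith

/-- The case `a = 1`. -/
theorem case_one {e b : ℤ} (he : e ≠ 0) (h : e * b ^ 3 + b = 1 - e ^ 2) :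
    (e = 1 ∧ b = 0) ∨ (e = -1 ∧ b = 0) ∨ (e = -1 ∧ b = 1) ∨ (e = 2 ∧ b = -1) ∨
      (e = -1 ∧ b = -1) := by
  have hb : |b| ≤ 1 := by
    by_contra hb
    push Not at hb
    have hb' : (1 : ℤ) ≠ b := by
      rintro rfl
      simp at hb
    have h1 := cube_le (a := 1) (by norm_num) he hb' (by linarith)
    have h2 : |1 - b| ≤ 1 + |b| := by
      calc |1 - b| ≤ |(1 : ℤ)| + |b| := abs_sub _ _
        _ = 1 + |b| := by simp
    have h3 : 2 ≤ |b| := hb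
    nlinarith [mul_nonneg (sub_nonneg.2 h3) (sub_nonneg.2 h3), mul_nonneg (abs_nonneg b)
      (mul_nonneg (sub_nonneg.2 h3) (sub_nonneg.2 h3))]
  rw [abs_le] at hb
  have : b = -1 ∨ b = 0 ∨ b = 1 := by omega
  rcases this with rfl | rfl | rfl
  · have : (e - 2) * (e + 1) = 0 := by linear_combination h
    rcases mul_eq_zero.1 this with h0 | h0
    · right; right; right; left; exact ⟨by omega, rfl⟩
    · right; right; right; right; exact ⟨by omega, rfl⟩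
  · have : (e - 1) * (e + 1) = 0 := by linear_combination h
    rcases mul_eq_zero.1 this with h0 | h0
    · left; exact ⟨by omega, rfl⟩
    · right; left; exact ⟨by omega, rfl⟩
  · have : e * (e + 1) = 0 := by linear_combination h
    rcases mul_eq_zero.1 this with h0 | h0
    · exact absurd h0 he
    · right; right; left; exact ⟨by omega, rfl⟩

/-- For `a ≥ 2` we have `a ≠ b`. -/
theorem ne_of_two {a b : ℤ} (ha : 2 ≤ a) (hab : IsCoprime a b) : a ≠ b := by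
  rintro rfl
  have := Int.isUnit_iff.1 (isCoprime_self.1 hab)
  omega

/-- The upper bound for `b`. -/
theorem sq_le {a e b : ℤ} (ha : 2 ≤ a) (he : e ≠ 0) (hab : IsCoprime a b)
    (h : e * b ^ 3 + b = a - a ^ 5 * e ^ 2) : b ^ 2 ≤ 2 * a ^ 5 := by
  have h1 := cube_le (by omega) he (ne_of_two ha hab) h
  have h2 : |a - b| ≤ a + |b| := by
    calc |a - b| ≤ |a| + |b| := abs_sub _ _
      _ = a + |b| := by rw [abs_of_nonneg (by omega : (0 : ℤ) ≤ a)]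
  have h5 : (0 : ℤ) < a ^ 5 := by positivity
  rw [← sq_abs b]
  rcases le_or_gt (|b|) a with hb | hb
  · have h3 : |b| ^ 2 ≤ a ^ 2 := by
      apply pow_le_pow_left₀ (abs_nonneg b) hb
    have h4 : a ^ 2 ≤ a ^ 5 := pow_le_pow_right₀ (by omega) (by norm_num)
    linarith
  · by_contra hc
    push Not at hc
    have h6 : |b| ^ 3 ≤ 1 + a ^ 5 * (2 * |b| - 1) := by
      have : a ^ 5 * |a - b| ≤ a ^ 5 * (2 * |b| - 1) := by
        apply mul_le_mul_of_nonneg_left _ h5.le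
        omega
      linarith
    have h7 : 2 * a ^ 5 * |b| < |b| ^ 2 * |b| := by
      apply mul_lt_mul_of_pos_right hc
      omega
    nlinarith

/-- The upper bound for `e`. -/
theorem e_sq {a e b : ℤ} (ha : 2 ≤ a) (he : e ≠ 0) (hab : IsCoprime a b)
    (h : e * b ^ 3 + b = a - a ^ 5 * e ^ 2) : e ^ 2 < 5 * a ^ 5 := by
  have hw := ew h
  have hne := ne_of_two ha hab
  have h1 : |e| ≤ |a - b| := by
    apply Int.le_of_dvd (abs_pos.2 (sub_ne_zero.2 hne))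
    rw [abs_dvd_abs]
    exact ⟨_, hw.symm⟩
  have h2 : |a - b| ≤ a + |b| := by
    calc |a - b| ≤ |a| + |b| := abs_sub _ _
      _ = a + |b| := by rw [abs_of_nonneg (by omega : (0 : ℤ) ≤ a)]
  have h3 : e ^ 2 ≤ (a + |b|) ^ 2 := by
    rw [← sq_abs e]
    exact pow_le_pow_left₀ (abs_nonneg e) (h1.trans h2) 2
  have h4 := sq_le ha he hab h
  rw [← sq_abs b] at h4
  have h5 : 8 * a ^ 2 ≤ a ^ 5 := by
    have : (2 : ℤ) ^ 3 ≤ a ^ 3 := pow_le_pow_left₀ (by norm_num) ha 3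
    nlinarith [mul_le_mul_of_nonneg_right this (sq_nonneg a)]
  have h6 : 0 < a ^ 2 := by positivity
  nlinarith [sq_nonneg (a - |b|)]

/-- A bound for `b`. -/
theorem b_cube {a e b : ℤ} (ha : 2 ≤ a) (he : e ≠ 0)
    (h : e * b ^ 3 + b = a - a ^ 5 * e ^ 2) : 2 * |b| ^ 3 ≤ 3 * a ^ 5 * |e| := by
  have hw := ew h
  have he1 : 1 ≤ |e| := Int.one_le_abs he
  have h1 : |a ^ 5 * e + b ^ 3| ≤ a + |b| := by
    calc |a ^ 5 * e + b ^ 3| = 1 * |a ^ 5 * e + b ^ 3| := by rw [one_mul]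
      _ ≤ |e| * |a ^ 5 * e + b ^ 3| := mul_le_mul_of_nonneg_right he1 (abs_nonneg _)
      _ = |a - b| := by rw [← abs_mul, hw]
      _ ≤ |a| + |b| := abs_sub _ _
      _ = a + |b| := by rw [abs_of_nonneg (by omega : (0 : ℤ) ≤ a)]
  have h3 : |b| ^ 3 ≤ |a ^ 5 * e + b ^ 3| + a ^ 5 * |e| := by
    rw [← abs_pow]
    calc |b ^ 3| = |(a ^ 5 * e + b ^ 3) - a ^ 5 * e| := by congr 1; ring
      _ ≤ |a ^ 5 * e + b ^ 3| + |a ^ 5 * e| := abs_sub _ _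
      _ = |a ^ 5 * e + b ^ 3| + a ^ 5 * |e| := by
        rw [abs_mul, abs_of_nonneg (by positivity : (0 : ℤ) ≤ a ^ 5)]
  have h5 : a ^ 5 ≤ a ^ 5 * |e| := le_mul_of_one_le_right (by positivity) he1
  rcases le_or_gt (|b|) a with hb | hb
  · have h6 : |b| ^ 3 ≤ a ^ 3 := pow_le_pow_left₀ (abs_nonneg b) hb 3
    have h7 : a ^ 3 ≤ a ^ 5 := pow_le_pow_right₀ (by omega) (by norm_num)
    nlinarith
  · have h6 : 9 * |b| ≤ |b| ^ 3 := by
      have : (3 : ℤ) ^ 2 ≤ |b| ^ 2 := pow_le_pow_left₀ (by norm_num) (by omega) 2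
      nlinarith [mul_le_mul_of_nonneg_right this (abs_nonneg b)]
    nlinarith

/-- The function of pole order 18 at infinity which vanishes to order 16 at the point `a = 0`. -/
theorem dvd_sixteen {a e b x y u : ℤ} (hab : IsCoprime a b)
    (h : e * b ^ 3 + b = a - a ^ 5 * e ^ 2) (hx : x = a ^ 2 * e) (hy : y = a * e * b)
    (hu : u = e * b ^ 2) :
    a ^ 16 ∣ 39 * x ^ 6 - 79 * (x ^ 3 * y ^ 2) - 93 * (x ^ 4 * y) - 56 * x ^ 5 -
      3 * (x ^ 2 * y ^ 2) - 103 * (x ^ 3 * y) - 235 * x ^ 4 + 185 * (x * y ^ 2) +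
      120 * (x ^ 2 * y) + 61 * x ^ 3 + 83 * y ^ 2 + 74 * (x * y) + 250 * x ^ 2 + 9 * u + 9 * y +
      92 * x + 9 := by
  have hc : IsCoprime (a ^ 16) (b ^ 16) := hab.pow
  apply hc.dvd_of_dvd_mul_left
  refine ⟨
      9 + (-34) * b ^ 2 * e + (-44) * b ^ 4 * e ^ 2 + 31 * b ^ 6 * e ^ 3 + 275 * b ^ 8 * e ^ 4 +
      179 * b ^ 10 * e ^ 5 + (-3) * b ^ 12 * e ^ 6 + (-9) * a * b ^ 3 * e ^ 2 +
      7 * a * b ^ 5 * e ^ 3 + 83 * a * b ^ 7 * e ^ 4 + 78 * a * b ^ 9 * e ^ 5 +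
      (-64) * a * b ^ 11 * e ^ 6 + (-39) * a * b ^ 13 * e ^ 7 + (-9) * a ^ 2 * b ^ 2 * e ^ 2 +
      16 * a ^ 2 * b ^ 4 * e ^ 3 + 76 * a ^ 2 * b ^ 6 * e ^ 4 + 31 * a ^ 2 * b ^ 8 * e ^ 5 +
      (-116) * a ^ 2 * b ^ 10 * e ^ 6 + (-79) * a ^ 2 * b ^ 12 * e ^ 7 +
      (-9) * a ^ 3 * b * e ^ 2 + 25 * a ^ 3 * b ^ 3 * e ^ 3 + 60 * a ^ 3 * b ^ 5 * e ^ 4 +
      (-9) * a ^ 3 * b ^ 7 * e ^ 5 + (-157) * a ^ 3 * b ^ 9 * e ^ 6 +
      (-93) * a ^ 3 * b ^ 11 * e ^ 7 + (-9) * a ^ 4 * e ^ 2 + 34 * a ^ 4 * b ^ 2 * e ^ 3 +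
      35 * a ^ 4 * b ^ 4 * e ^ 4 + (-33) * a ^ 4 * b ^ 6 * e ^ 5 +
      (-194) * a ^ 4 * b ^ 8 * e ^ 6 + (-56) * a ^ 4 * b ^ 10 * e ^ 7, ?_⟩
  rw [hx, hy, hu]
  linear_combination (
      9 * b ^ 15 + 9 * a * b ^ 14 + 9 * a ^ 2 * b ^ 13 + 83 * a ^ 2 * b ^ 15 * e +
      9 * a ^ 3 * b ^ 12 + 74 * a ^ 3 * b ^ 14 * e + 9 * a ^ 4 * b ^ 11 +
      65 * a ^ 4 * b ^ 13 * e + 185 * a ^ 4 * b ^ 15 * e ^ 2 + 9 * a ^ 5 * b ^ 10 +
      56 * a ^ 5 * b ^ 12 * e + 120 * a ^ 5 * b ^ 14 * e ^ 2 + 9 * a ^ 6 * b ^ 9 +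
      47 * a ^ 6 * b ^ 11 * e + 64 * a ^ 6 * b ^ 13 * e ^ 2 + (-3) * a ^ 6 * b ^ 15 * e ^ 3 +
      9 * a ^ 7 * b ^ 8 + 38 * a ^ 7 * b ^ 10 * e + 17 * a ^ 7 * b ^ 12 * e ^ 2 +
      (-103) * a ^ 7 * b ^ 14 * e ^ 3 + 9 * a ^ 8 * b ^ 7 + 29 * a ^ 8 * b ^ 9 * e +
      (-21) * a ^ 8 * b ^ 11 * e ^ 2 + (-156) * a ^ 8 * b ^ 13 * e ^ 3 +
      (-79) * a ^ 8 * b ^ 15 * e ^ 4 + 9 * a ^ 9 * b ^ 6 + 20 * a ^ 9 * b ^ 8 * e +
      (-50) * a ^ 9 * b ^ 10 * e ^ 2 + (-171) * a ^ 9 * b ^ 12 * e ^ 3 +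
      (-93) * a ^ 9 * b ^ 14 * e ^ 4 + 9 * a ^ 10 * b ^ 5 + 11 * a ^ 10 * b ^ 7 * e +
      (-70) * a ^ 10 * b ^ 9 * e ^ 2 + (-157) * a ^ 10 * b ^ 11 * e ^ 3 +
      (-56) * a ^ 10 * b ^ 13 * e ^ 4 + 9 * a ^ 11 * b ^ 4 + 2 * a ^ 11 * b ^ 6 * e +
      (-81) * a ^ 11 * b ^ 8 * e ^ 2 + (-123) * a ^ 11 * b ^ 10 * e ^ 3 +
      3 * a ^ 11 * b ^ 12 * e ^ 4 + 9 * a ^ 12 * b ^ 3 + (-7) * a ^ 12 * b ^ 5 * e +
      (-83) * a ^ 12 * b ^ 7 * e ^ 2 + (-78) * a ^ 12 * b ^ 9 * e ^ 3 +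
      64 * a ^ 12 * b ^ 11 * e ^ 4 + 39 * a ^ 12 * b ^ 13 * e ^ 5 + 9 * a ^ 13 * b ^ 2 +
      (-16) * a ^ 13 * b ^ 4 * e + (-76) * a ^ 13 * b ^ 6 * e ^ 2 +
      (-31) * a ^ 13 * b ^ 8 * e ^ 3 + 116 * a ^ 13 * b ^ 10 * e ^ 4 +
      79 * a ^ 13 * b ^ 12 * e ^ 5 + 9 * a ^ 14 * b + (-25) * a ^ 14 * b ^ 3 * e +
      (-60) * a ^ 14 * b ^ 5 * e ^ 2 + 9 * a ^ 14 * b ^ 7 * e ^ 3 +
      157 * a ^ 14 * b ^ 9 * e ^ 4 + 93 * a ^ 14 * b ^ 11 * e ^ 5 + 9 * a ^ 15 +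
      (-34) * a ^ 15 * b ^ 2 * e + (-35) * a ^ 15 * b ^ 4 * e ^ 2 +
      33 * a ^ 15 * b ^ 6 * e ^ 3 + 194 * a ^ 15 * b ^ 8 * e ^ 4 +
      56 * a ^ 15 * b ^ 10 * e ^ 5) * h

/-- The size of this function. -/
theorem size_sixteen {x y u N : ℤ} (hN : N = |x|) (h162 : 162 ≤ N)
    (hy : 2 * |y| ^ 3 ≤ 3 * N ^ 4) (hu : 4 * |u| ^ 3 ≤ 9 * N ^ 5) :
    0 < 39 * x ^ 6 - 79 * (x ^ 3 * y ^ 2) - 93 * (x ^ 4 * y) - 56 * x ^ 5 -
      3 * (x ^ 2 * y ^ 2) - 103 * (x ^ 3 * y) - 235 * x ^ 4 + 185 * (x * y ^ 2) +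
      120 * (x ^ 2 * y) + 61 * x ^ 3 + 83 * y ^ 2 + 74 * (x * y) + 250 * x ^ 2 + 9 * u + 9 * y +
      92 * x + 9 ∧
    39 * x ^ 6 - 79 * (x ^ 3 * y ^ 2) - 93 * (x ^ 4 * y) - 56 * x ^ 5 -
      3 * (x ^ 2 * y ^ 2) - 103 * (x ^ 3 * y) - 235 * x ^ 4 + 185 * (x * y ^ 2) +
      120 * (x ^ 2 * y) + 61 * x ^ 3 + 83 * y ^ 2 + 74 * (x * y) + 250 * x ^ 2 + 9 * u + 9 * y +
      92 * x + 9 < 64 * N ^ 6 := by
  have hN0 : 0 < N := by omega
  have p2 : 0 < N ^ 2 := by positivity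
  have p3 : 0 < N ^ 3 := by positivity
  have p4 : 0 < N ^ 4 := by positivity
  have p5 : 0 < N ^ 5 := by positivity
  have p6 : 0 < N ^ 6 := by positivity
  have a1 : 4 * |y| ^ 2 ≤ N ^ 3 := by
    by_contra hc
    push Not at hc
    have h1 : (N ^ 3) ^ 3 < (4 * |y| ^ 2) ^ 3 := pow_lt_pow_left₀ hc p3.le (by norm_num)
    have h2 : (2 * |y| ^ 3) ^ 2 ≤ (3 * N ^ 4) ^ 2 := pow_le_pow_left₀ (by positivity) hy 2
    have h3 : N ^ 8 * N < N ^ 8 * 144 := by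
      calc N ^ 8 * N = (N ^ 3) ^ 3 := by ring
        _ < (4 * |y| ^ 2) ^ 3 := h1
        _ = 16 * (2 * |y| ^ 3) ^ 2 := by ring
        _ ≤ 16 * (3 * N ^ 4) ^ 2 := by linarith
        _ = N ^ 8 * 144 := by ring
    have := lt_of_mul_lt_mul_left h3 (by positivity)
    omega
  have a2 : 25 * |y| ≤ N ^ 2 := by
    by_contra hc
    push Not at hc
    have h1 : (N ^ 2) ^ 3 < (25 * |y|) ^ 3 := pow_lt_pow_left₀ hc p2.le (by norm_num)
    have h3 : N ^ 4 * (2 * N ^ 2) < N ^ 4 * 46875 := by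
      calc N ^ 4 * (2 * N ^ 2) = 2 * (N ^ 2) ^ 3 := by ring
        _ < 2 * (25 * |y|) ^ 3 := by linarith
        _ = 15625 * (2 * |y| ^ 3) := by ring
        _ ≤ 15625 * (3 * N ^ 4) := by linarith
        _ = N ^ 4 * 46875 := by ring
    have := lt_of_mul_lt_mul_left h3 p4.le
    nlinarith
  have a3 : 4 * |u| ≤ N ^ 2 := by
    by_contra hc
    push Not at hc
    have h1 : (N ^ 2) ^ 3 < (4 * |u|) ^ 3 := pow_lt_pow_left₀ hc p2.le (by norm_num)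
    have h3 : N ^ 5 * N < N ^ 5 * 144 := by
      calc N ^ 5 * N = (N ^ 2) ^ 3 := by ring
        _ < (4 * |u|) ^ 3 := h1
        _ = 16 * (4 * |u| ^ 3) := by ring
        _ ≤ 16 * (9 * N ^ 5) := by linarith
        _ = N ^ 5 * 144 := by ring
    have := lt_of_mul_lt_mul_left h3 p5.le
    omega
  have y0 := abs_nonneg y
  have u0 := abs_nonneg u
  have q65 : 162 * N ^ 5 ≤ N ^ 6 := by nlinarith
  have q54 : 162 * N ^ 4 ≤ N ^ 5 := by nlinarith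
  have q43 : 162 * N ^ 3 ≤ N ^ 4 := by nlinarith
  have q32 : 162 * N ^ 2 ≤ N ^ 3 := by nlinarith
  have q21 : 162 * N ≤ N ^ 2 := by nlinarith
  have x6 : x ^ 6 = N ^ 6 := by rw [hN, ← abs_pow, abs_of_nonneg (by positivity)]
  have t1 : |x ^ 3 * y ^ 2| = N ^ 3 * |y| ^ 2 := by rw [abs_mul, abs_pow, abs_pow, hN]
  have t2 : |x ^ 4 * y| = N ^ 4 * |y| := by rw [abs_mul, abs_pow, hN]
  have t3 : |x ^ 5| = N ^ 5 := by rw [abs_pow, hN]
  have t4 : |x ^ 2 * y ^ 2| = N ^ 2 * |y| ^ 2 := by rw [abs_mul, abs_pow, abs_pow, hN]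
  have t5 : |x ^ 3 * y| = N ^ 3 * |y| := by rw [abs_mul, abs_pow, hN]
  have t6 : |x ^ 4| = N ^ 4 := by rw [abs_pow, hN]
  have t7 : |x * y ^ 2| = N * |y| ^ 2 := by rw [abs_mul, abs_pow, hN]
  have t8 : |x ^ 2 * y| = N ^ 2 * |y| := by rw [abs_mul, abs_pow, hN]
  have t9 : |x ^ 3| = N ^ 3 := by rw [abs_pow, hN]
  have t10 : |y ^ 2| = |y| ^ 2 := by rw [abs_pow]
  have t11 : |x * y| = N * |y| := by rw [abs_mul, hN]
  have t12 : |x ^ 2| = N ^ 2 := by rw [abs_pow, hN]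
  have t13 : |x| = N := hN.symm
  have s1 : 4 * |x ^ 3 * y ^ 2| ≤ N ^ 6 := by
    rw [t1]
    calc 4 * (N ^ 3 * |y| ^ 2) = N ^ 3 * (4 * |y| ^ 2) := by ring
      _ ≤ N ^ 3 * N ^ 3 := mul_le_mul_of_nonneg_left a1 p3.le
      _ = N ^ 6 := by ring
  have s2 : 25 * |x ^ 4 * y| ≤ N ^ 6 := by
    rw [t2]
    calc 25 * (N ^ 4 * |y|) = N ^ 4 * (25 * |y|) := by ring
      _ ≤ N ^ 4 * N ^ 2 := mul_le_mul_of_nonneg_left a2 p4.le
      _ = N ^ 6 := by ring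
  have s4 : 4 * |x ^ 2 * y ^ 2| ≤ N ^ 5 := by
    rw [t4]
    calc 4 * (N ^ 2 * |y| ^ 2) = N ^ 2 * (4 * |y| ^ 2) := by ring
      _ ≤ N ^ 2 * N ^ 3 := mul_le_mul_of_nonneg_left a1 p2.le
      _ = N ^ 5 := by ring
  have s5 : 25 * |x ^ 3 * y| ≤ N ^ 5 := by
    rw [t5]
    calc 25 * (N ^ 3 * |y|) = N ^ 3 * (25 * |y|) := by ring
      _ ≤ N ^ 3 * N ^ 2 := mul_le_mul_of_nonneg_left a2 p3.le
      _ = N ^ 5 := by ring
  have s7 : 4 * |x * y ^ 2| ≤ N ^ 4 := by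
    rw [t7]
    calc 4 * (N * |y| ^ 2) = N * (4 * |y| ^ 2) := by ring
      _ ≤ N * N ^ 3 := mul_le_mul_of_nonneg_left a1 hN0.le
      _ = N ^ 4 := by ring
  have s8 : 25 * |x ^ 2 * y| ≤ N ^ 4 := by
    rw [t8]
    calc 25 * (N ^ 2 * |y|) = N ^ 2 * (25 * |y|) := by ring
      _ ≤ N ^ 2 * N ^ 2 := mul_le_mul_of_nonneg_left a2 p2.le
      _ = N ^ 4 := by ring
  have s11 : 25 * |x * y| ≤ N ^ 3 := by
    rw [t11]
    calc 25 * (N * |y|) = N * (25 * |y|) := by ring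
      _ ≤ N * N ^ 2 := mul_le_mul_of_nonneg_left a2 hN0.le
      _ = N ^ 3 := by ring
  rw [← t10] at a1
  rw [x6]
  have b1 := abs_le.1 (le_refl |x ^ 3 * y ^ 2|)
  have b2 := abs_le.1 (le_refl |x ^ 4 * y|)
  have b3 := abs_le.1 (t3.le)
  have b4 := abs_le.1 (le_refl |x ^ 2 * y ^ 2|)
  have b5 := abs_le.1 (le_refl |x ^ 3 * y|)
  have b6 := abs_le.1 (t6.le)
  have b7 := abs_le.1 (le_refl |x * y ^ 2|)
  have b8 := abs_le.1 (le_refl |x ^ 2 * y|)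
  have b9 := abs_le.1 (t9.le)
  have b10 := abs_le.1 (le_refl |y ^ 2|)
  have b11 := abs_le.1 (le_refl |x * y|)
  have b12 := abs_le.1 (t12.le)
  have b13 := abs_le.1 (t13.le)
  have b14 := abs_le.1 (le_refl |y|)
  have b15 := abs_le.1 (le_refl |u|)
  constructor
  · linarith [b1.1, b1.2, b2.1, b2.2, b3.1, b3.2, b4.1, b4.2, b5.1, b5.2, b6.1, b6.2, b7.1, b7.2,
      b8.1, b8.2, b9.1, b9.2, b10.1, b10.2, b11.1, b11.2, b12.1, b12.2, b13.1, b13.2, b14.1,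
      b14.2, b15.1, b15.2]
  · linarith [b1.1, b1.2, b2.1, b2.2, b3.1, b3.2, b4.1, b4.2, b5.1, b5.2, b6.1, b6.2, b7.1, b7.2,
      b8.1, b8.2, b9.1, b9.2, b10.1, b10.2, b11.1, b11.2, b12.1, b12.2, b13.1, b13.2, b14.1,
      b14.2, b15.1, b15.2]

/-- The bound for `a` if `a^2 |e| ≥ 162`. -/
theorem a_side {a e b : ℤ} (ha : 2 ≤ a) (he : e ≠ 0) (hab : IsCoprime a b)
    (h : e * b ^ 3 + b = a - a ^ 5 * e ^ 2) (h162 : 162 ≤ a ^ 2 * |e|) :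
    a ^ 2 ≤ 8 * |e| ^ 3 := by
  have hb := b_cube ha he h
  have ha0 : 0 < a := by omega
  have haa : |a| = a := abs_of_pos ha0
  obtain ⟨x, hx⟩ : ∃ x, x = a ^ 2 * e := ⟨_, rfl⟩
  obtain ⟨y, hy⟩ : ∃ y, y = a * e * b := ⟨_, rfl⟩
  obtain ⟨u, hu⟩ : ∃ u, u = e * b ^ 2 := ⟨_, rfl⟩
  have hN : a ^ 2 * |e| = |x| := by rw [hx, abs_mul, abs_pow, haa]
  have h1 := dvd_sixteen hab h hx hy hu
  have hy3 : 2 * |y| ^ 3 ≤ 3 * (a ^ 2 * |e|) ^ 4 := by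
    rw [hy, abs_mul, abs_mul, haa]
    calc 2 * (a * |e| * |b|) ^ 3 = a ^ 3 * |e| ^ 3 * (2 * |b| ^ 3) := by ring
      _ ≤ a ^ 3 * |e| ^ 3 * (3 * a ^ 5 * |e|) := mul_le_mul_of_nonneg_left hb (by positivity)
      _ = 3 * (a ^ 2 * |e|) ^ 4 := by ring
  have hu3 : 4 * |u| ^ 3 ≤ 9 * (a ^ 2 * |e|) ^ 5 := by
    rw [hu, abs_mul, abs_pow]
    have h2 : (2 * |b| ^ 3) ^ 2 ≤ (3 * a ^ 5 * |e|) ^ 2 := pow_le_pow_left₀ (by positivity) hb 2
    calc 4 * (|e| * |b| ^ 2) ^ 3 = |e| ^ 3 * (2 * |b| ^ 3) ^ 2 := by ring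
      _ ≤ |e| ^ 3 * (3 * a ^ 5 * |e|) ^ 2 := mul_le_mul_of_nonneg_left h2 (by positivity)
      _ = 9 * (a ^ 2 * |e|) ^ 5 := by ring
  obtain ⟨h2, h3⟩ := size_sixteen hN h162 hy3 hu3
  have h4 := Int.le_of_dvd h2 h1
  have h5 : a ^ 12 * a ^ 4 < a ^ 12 * (64 * |e| ^ 6) := by
    calc a ^ 12 * a ^ 4 = a ^ 16 := by ring
      _ < 64 * (a ^ 2 * |e|) ^ 6 := lt_of_le_of_lt h4 h3
      _ = a ^ 12 * (64 * |e| ^ 6) := by ring
  have h6 : a ^ 4 < 64 * |e| ^ 6 := lt_of_mul_lt_mul_left h5 (by positivity)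
  by_contra hc
  push Not at hc
  have h7 : (8 * |e| ^ 3) ^ 2 < (a ^ 2) ^ 2 := pow_lt_pow_left₀ hc (by positivity) (by norm_num)
  have h8 : (8 * |e| ^ 3) ^ 2 = 64 * |e| ^ 6 := by ring
  have h9 : (a ^ 2) ^ 2 = a ^ 4 := by ring
  linarith

/-- The second bound for `a`. -/
theorem a_side22 {a e b : ℤ} (ha : 2 ≤ a) (he : e ≠ 0) (hab : IsCoprime a b)
    (h : e * b ^ 3 + b = a - a ^ 5 * e ^ 2) (h1600 : 1600 ≤ a ^ 2 * |e|) :
    a ^ 3 ≤ 300 * |e| ^ 4 := by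
  have hb := b_cube ha he h
  have ha0 : 0 < a := by omega
  have haa : |a| = a := abs_of_pos ha0
  obtain ⟨x, hx⟩ : ∃ x, x = a ^ 2 * e := ⟨_, rfl⟩
  obtain ⟨y, hy⟩ : ∃ y, y = a * e * b := ⟨_, rfl⟩
  obtain ⟨u, hu⟩ : ∃ u, u = e * b ^ 2 := ⟨_, rfl⟩
  have hN : a ^ 2 * |e| = |x| := by rw [hx, abs_mul, abs_pow, haa]
  have h1 := Pool.Agent.H4Q.dvd_22 hab h hx hy hu
  have hy3 : 2 * |y| ^ 3 ≤ 3 * (a ^ 2 * |e|) ^ 4 := by
    rw [hy, abs_mul, abs_mul, haa]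
    calc 2 * (a * |e| * |b|) ^ 3 = a ^ 3 * |e| ^ 3 * (2 * |b| ^ 3) := by ring
      _ ≤ a ^ 3 * |e| ^ 3 * (3 * a ^ 5 * |e|) := mul_le_mul_of_nonneg_left hb (by positivity)
      _ = 3 * (a ^ 2 * |e|) ^ 4 := by ring
  have hu3 : 4 * |u| ^ 3 ≤ 9 * (a ^ 2 * |e|) ^ 5 := by
    rw [hu, abs_mul, abs_pow]
    have h2 : (2 * |b| ^ 3) ^ 2 ≤ (3 * a ^ 5 * |e|) ^ 2 := pow_le_pow_left₀ (by positivity) hb 2
    calc 4 * (|e| * |b| ^ 2) ^ 3 = |e| ^ 3 * (2 * |b| ^ 3) ^ 2 := by ring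
      _ ≤ |e| ^ 3 * (3 * a ^ 5 * |e|) ^ 2 := mul_le_mul_of_nonneg_left h2 (by positivity)
      _ = 9 * (a ^ 2 * |e|) ^ 5 := by ring
  obtain ⟨h2, h3⟩ := Pool.Agent.H4Q.size_22 hN h1600 hy3 hu3
  have h4 := Int.le_of_dvd h2 h1
  have h5 : a ^ 16 * a ^ 6 < a ^ 16 * (90000 * |e| ^ 8) := by
    calc a ^ 16 * a ^ 6 = a ^ 22 := by ring
      _ < 90000 * (a ^ 2 * |e|) ^ 8 := lt_of_le_of_lt h4 h3
      _ = a ^ 16 * (90000 * |e| ^ 8) := by ring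
  have h6 : a ^ 6 < 90000 * |e| ^ 8 := lt_of_mul_lt_mul_left h5 (by positivity)
  by_contra hc
  push Not at hc
  have h7 : (300 * |e| ^ 4) ^ 2 < (a ^ 3) ^ 2 :=
    pow_lt_pow_left₀ hc (by positivity) (by norm_num)
  have h8 : (300 * |e| ^ 4) ^ 2 = 90000 * |e| ^ 8 := by ring
  have h9 : (a ^ 3) ^ 2 = a ^ 6 := by ring
  linarith

/-- The section which vanishes to order 4 at the point `e = 0`. -/
theorem dvd_four {a e w : ℤ}
    (h : w = a ^ 3 + a ^ 5 * e - 3 * a ^ 2 * e * w + 3 * a * e ^ 2 * w ^ 2 - e ^ 3 * w ^ 3) :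
    e ^ 4 ∣ a ^ 6 + 4 * a ^ 3 * w - 5 * w ^ 2 - 12 * e * a ^ 2 * w ^ 2 +
      26 * e ^ 2 * a * w ^ 3 := by
  refine ⟨
      (-5) * w ^ 6 * e ^ 2 + 4 * a * w ^ 5 * e + 15 * a ^ 2 * w ^ 4 + 18 * a ^ 3 * w ^ 5 * e ^ 2 +
      (-53) * a ^ 4 * w ^ 4 * e + 55 * a ^ 5 * w ^ 3 + 1 * a ^ 6 * w ^ 4 * e ^ 2 +
      (-2) * a ^ 7 * w ^ 3 * e + (-18) * a ^ 8 * w ^ 2 + (-1) * a ^ 9 * w ^ 3 * e ^ 2 +
      3 * a ^ 10 * w ^ 2 * e + (-4) * a ^ 11 * w + 1 * a ^ 14, ?_⟩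
  linear_combination (-(
      5 * w + (-5) * w ^ 3 * e ^ 3 + (-11) * a * w ^ 2 * e ^ 2 + (-3) * a ^ 2 * w * e +
      1 * a ^ 3 + 18 * a ^ 3 * w ^ 2 * e ^ 3 + 1 * a ^ 4 * w * e ^ 2 + (-1) * a ^ 5 * e +
      1 * a ^ 6 * w * e ^ 3 + 1 * a ^ 7 * e ^ 2 + (-1) * a ^ 9 * e ^ 3)) * h

/-- The sign of `w`. -/
theorem w_pos {a e b : ℤ} (ha : 2 ≤ a) (he : e ≠ 0)
    (h : e * b ^ 3 + b = a - a ^ 5 * e ^ 2) : 0 < e * (a - b) := by
  have he2 : 1 ≤ e ^ 2 := by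
    have : 0 < e ^ 2 := by positivity
    omega
  have h5 : a < a ^ 5 := by
    have : a ^ 1 < a ^ 5 := pow_lt_pow_right₀ (by omega) (by norm_num)
    simpa using this
  have h5' : a ^ 5 ≤ a ^ 5 * e ^ 2 := le_mul_of_one_le_right (by positivity) he2
  rcases lt_or_gt_of_ne he with hn | hp
  · have hb : a < b := by
      by_contra hc
      push Not at hc
      have hE : 1 ≤ -e := by omega
      rcases le_or_gt b 0 with hb | hb
      · have h1 : 0 ≤ e * b ^ 3 + b := by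
          have h2 : e * b ^ 3 + b = (-b) * ((-e) * b ^ 2 - 1) := by ring
          rcases hb.eq_or_lt with hb0 | hb0
          · rw [hb0]; simp
          · rw [h2]
            apply mul_nonneg (by omega)
            have hb1 : b ≠ 0 := by omega
            have : 0 < b ^ 2 := by positivity
            nlinarith
        linarith
      · have h1 : b ^ 3 ≤ a ^ 3 := pow_le_pow_left₀ hb.le hc 3
        have h2 : (-e) * b ^ 3 ≤ (-e) * a ^ 3 := mul_le_mul_of_nonneg_left h1 (by omega)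
        have h3 : (-e) * (2 * a ^ 3) ≤ a ^ 5 * e ^ 2 := by
          have h4 : 4 * a ^ 3 ≤ a ^ 5 := by
            have : (2 : ℤ) ^ 2 ≤ a ^ 2 := pow_le_pow_left₀ (by norm_num) ha 2
            nlinarith [mul_le_mul_of_nonneg_right this (by positivity : 0 ≤ a ^ 3)]
          have h6 : -e ≤ e ^ 2 := by nlinarith
          have h7 : 0 < a ^ 3 := by positivity
          calc (-e) * (2 * a ^ 3) ≤ e ^ 2 * (2 * a ^ 3) :=
                mul_le_mul_of_nonneg_right h6 (by positivity)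
            _ ≤ e ^ 2 * a ^ 5 := mul_le_mul_of_nonneg_left (by linarith) (by positivity)
            _ = a ^ 5 * e ^ 2 := by ring
        have h8 : a ≤ (-e) * a ^ 3 := by
          have : a ^ 1 ≤ a ^ 3 := pow_le_pow_right₀ (by omega) (by norm_num)
          nlinarith [mul_le_mul_of_nonneg_right hE (by positivity : 0 ≤ a ^ 3)]
        linarith
    nlinarith
  · have hb : b < 0 := by
      by_contra hc
      push Not at hc
      have : 0 ≤ e * b ^ 3 := by positivity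
      linarith
    apply mul_pos hp
    omega

/-- The bound for `e`. -/
theorem e_side {a e b : ℤ} (ha : 3 ≤ a) (he : e ≠ 0)
    (h : e * b ^ 3 + b = a - a ^ 5 * e ^ 2) : |e| ^ 2 ≤ 8 * a ^ 3 := by
  by_contra hc
  push Not at hc
  have ha0 : 0 < a := by omega
  have hE15 : 15 ≤ |e| := by
    by_contra hlt
    push Not at hlt
    have h1 : |e| ^ 2 ≤ 14 ^ 2 := pow_le_pow_left₀ (abs_nonneg e) (by omega) 2
    have h2 : (3 : ℤ) ^ 3 ≤ a ^ 3 := pow_le_pow_left₀ (by norm_num) ha 3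
    have h3 : (14 : ℤ) ^ 2 = 196 := by norm_num
    have h4 : (3 : ℤ) ^ 3 = 27 := by norm_num
    linarith
  have hw := ew h
  obtain ⟨w, hwd⟩ : ∃ w, w = a ^ 5 * e + b ^ 3 := ⟨_, rfl⟩
  rw [← hwd] at hw
  have hb : b = a - e * w := by linarith
  have hw1 : 1 ≤ w := by
    have h1 := w_pos (by omega) he h
    rw [← hw] at h1
    have h2 : 0 < e ^ 2 := by positivity
    have h3 : e * (e * w) = e ^ 2 * w := by ring
    rw [h3] at h1
    exact Int.pos_of_mul_pos_right h1 h2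
  have hrel : w = a ^ 3 + a ^ 5 * e - 3 * a ^ 2 * e * w + 3 * a * e ^ 2 * w ^ 2 -
      e ^ 3 * w ^ 3 := by
    rw [hb] at hwd
    linear_combination hwd
  have hdvd := dvd_four hrel
  obtain ⟨E, hE⟩ : ∃ E, E = |e| := ⟨_, rfl⟩
  obtain ⟨B, hB⟩ : ∃ B, B = |b| := ⟨_, rfl⟩
  have hB0 : 0 ≤ B := by rw [hB]; exact abs_nonneg b
  rw [← hE] at hc hE15
  have hT : E * w ≤ a + B := by
    calc E * w = |e * w| := by rw [hE, abs_mul, abs_of_pos (by omega : (0 : ℤ) < w)]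
      _ = |a - b| := by rw [hw]
      _ ≤ |a| + |b| := abs_sub _ _
      _ = a + B := by rw [abs_of_pos ha0, hB]
  obtain ⟨T, hTd⟩ : ∃ T, T = E * w := ⟨_, rfl⟩
  rw [← hTd] at hT
  have hT0 : 0 ≤ T := by rw [hTd]; positivity
  obtain ⟨V, hV⟩ : ∃ V, V = a ^ 5 * E := ⟨_, rfl⟩
  have hB3 : B ^ 3 ≤ w + V := by
    rw [hB, ← abs_pow]
    calc |b ^ 3| = |w - a ^ 5 * e| := by congr 1; rw [hwd]; ring
      _ ≤ |w| + |a ^ 5 * e| := abs_sub _ _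
      _ = w + V := by
        rw [abs_of_pos (by omega : (0 : ℤ) < w), abs_mul, abs_of_pos (by positivity : 0 < a ^ 5),
          hV, hE]
  have hr : 135 ≤ a ^ 2 * E := by
    have h1 : (3 : ℤ) ^ 2 ≤ a ^ 2 := pow_le_pow_left₀ (by norm_num) ha 2
    nlinarith
  have hVa : V = a ^ 3 * (a ^ 2 * E) := by rw [hV]; ring
  have hV0 : 0 < V := by rw [hV]; positivity
  have c1 : 135 * a ^ 3 ≤ V := by
    rw [hVa]
    nlinarith [mul_le_mul_of_nonneg_left hr (by positivity : 0 ≤ a ^ 3)]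
  have c0 : a ≤ a ^ 3 := by
    have : a ^ 1 ≤ a ^ 3 := pow_le_pow_right₀ (by omega) (by norm_num)
    simpa using this
  have cB : B ≤ B ^ 3 := by
    rcases hB0.eq_or_lt with h0 | h0
    · rw [← h0]; norm_num
    · have : B ^ 1 ≤ B ^ 3 := pow_le_pow_right₀ (by omega) (by norm_num)
      simpa using this
  have cw : 15 * w ≤ a + B := by
    calc 15 * w ≤ E * w := mul_le_mul_of_nonneg_right hE15 (by omega)
      _ = T := hTd.symm
      _ ≤ a + B := hT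
  have c2 : 25 * B ^ 3 ≤ 27 * V := by linarith
  have c3 : 4 * (a * B ^ 2) ≤ V := by
    by_contra hlt
    push Not at hlt
    have h1 : V ^ 3 < (4 * (a * B ^ 2)) ^ 3 := pow_lt_pow_left₀ hlt hV0.le (by norm_num)
    have h2 : (25 * B ^ 3) ^ 2 ≤ (27 * V) ^ 2 := pow_le_pow_left₀ (by positivity) c2 2
    have h3 : V ^ 2 * (625 * V) < V ^ 2 * (46656 * a ^ 3) := by
      calc V ^ 2 * (625 * V) = 625 * V ^ 3 := by ring
        _ < 625 * (4 * (a * B ^ 2)) ^ 3 := by linarith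
        _ = 64 * a ^ 3 * (25 * B ^ 3) ^ 2 := by ring
        _ ≤ 64 * a ^ 3 * (27 * V) ^ 2 := mul_le_mul_of_nonneg_left h2 (by positivity)
        _ = V ^ 2 * (46656 * a ^ 3) := by ring
    have h4 := lt_of_mul_lt_mul_left h3 (by positivity)
    have h5 : 0 < a ^ 3 := by positivity
    linarith
  have c4 : 20 * (a ^ 2 * B) ≤ V := by
    by_contra hlt
    push Not at hlt
    have h1 : V ^ 3 < (20 * (a ^ 2 * B)) ^ 3 := pow_lt_pow_left₀ hlt hV0.le (by norm_num)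
    have h3 : V * (25 * V ^ 2) < V * (216000 * (a ^ 3) ^ 2) := by
      calc V * (25 * V ^ 2) = 25 * V ^ 3 := by ring
        _ < 25 * (20 * (a ^ 2 * B)) ^ 3 := by linarith
        _ = 8000 * a ^ 6 * (25 * B ^ 3) := by ring
        _ ≤ 8000 * a ^ 6 * (27 * V) := mul_le_mul_of_nonneg_left c2 (by positivity)
        _ = V * (216000 * (a ^ 3) ^ 2) := by ring
    have h4 := lt_of_mul_lt_mul_left h3 hV0.le
    have h5 : (135 * a ^ 3) ^ 2 ≤ V ^ 2 := pow_le_pow_left₀ (by positivity) c1 2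
    have h6 : (135 * a ^ 3) ^ 2 = 18225 * (a ^ 3) ^ 2 := by ring
    have h7 : 0 < (a ^ 3) ^ 2 := by positivity
    linarith
  have c5 : 26 * T ^ 3 + 12 * a * T ^ 2 + 4 * a ^ 2 * T ≤ 63 * V := by
    have k3 : T ^ 3 ≤ (a + B) ^ 3 := pow_le_pow_left₀ hT0 hT 3
    have k2 : T ^ 2 ≤ (a + B) ^ 2 := pow_le_pow_left₀ hT0 hT 2
    have k2' : a * T ^ 2 ≤ a * (a + B) ^ 2 := mul_le_mul_of_nonneg_left k2 ha0.le
    have k1' : a ^ 2 * T ≤ a ^ 2 * (a + B) := mul_le_mul_of_nonneg_left hT (by positivity)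
    have k4 : 26 * (a + B) ^ 3 + 12 * (a * (a + B) ^ 2) + 4 * (a ^ 2 * (a + B)) =
        26 * B ^ 3 + 90 * (a * B ^ 2) + 106 * (a ^ 2 * B) + 42 * a ^ 3 := by ring
    linarith
  obtain ⟨P, hP⟩ : ∃ P, P = a ^ 6 + 4 * a ^ 3 * w - 5 * w ^ 2 - 12 * e * a ^ 2 * w ^ 2 +
      26 * e ^ 2 * a * w ^ 3 := ⟨_, rfl⟩
  rw [← hP] at hdvd
  have hEa : a ≤ E := by
    by_contra hlt
    push Not at hlt
    have h1 : E ^ 2 ≤ a ^ 2 := pow_le_pow_left₀ (by omega) hlt.le 2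
    have h2 : a ^ 2 ≤ a ^ 3 := pow_le_pow_right₀ (by omega) (by norm_num)
    have h3 : 0 < a ^ 3 := by positivity
    linarith
  have heE : e ≤ E := by rw [hE]; exact le_abs_self e
  have heE' : -E ≤ e := by rw [hE]; exact neg_abs_le e
  have he2 : e ^ 2 = E ^ 2 := by rw [hE, sq_abs]
  have hw2 : 0 < w ^ 2 := by positivity
  have haw : 0 < a ^ 2 * w ^ 2 := by positivity
  have hPpos : 0 < P := by
    have h1 : e * (a ^ 2 * w ^ 2) ≤ E * (a ^ 2 * w ^ 2) := mul_le_mul_of_nonneg_right heE haw.le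
    have h2 : P = a ^ 6 + 4 * a ^ 3 * w - 5 * w ^ 2 - 12 * (e * (a ^ 2 * w ^ 2)) +
        26 * E ^ 2 * a * w ^ 3 := by rw [hP, he2]; ring
    have h3 : w ^ 2 * (26 * E ^ 2 * a * w - 12 * E * a ^ 2 - 5) ≥ 0 := by
      apply mul_nonneg hw2.le
      have h4 : E * a * (E * w) ≥ E * a * (E * 1) := by
        apply mul_le_mul_of_nonneg_left _ (by positivity)
        apply mul_le_mul_of_nonneg_left hw1 (by omega)
      have h5 : E * a * E ≥ E * a * a := mul_le_mul_of_nonneg_left hEa (by positivity)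
      have h6 : 1 ≤ E * a * a := by
        have : 0 < E * a * a := by positivity
        omega
      nlinarith
    have h7 : 0 < a ^ 6 + 4 * a ^ 3 * w := by positivity
    nlinarith
  have hPle : P ≤ 64 * a ^ 6 := by
    have h1 : -(E * (a ^ 2 * w ^ 2)) ≤ e * (a ^ 2 * w ^ 2) := by
      have := mul_le_mul_of_nonneg_right heE' haw.le
      linarith
    have h2 : P ≤ a ^ 6 + 4 * a ^ 3 * w + 12 * (E * (a ^ 2 * w ^ 2)) + 26 * E ^ 2 * a * w ^ 3 := by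
      have : P = a ^ 6 + 4 * a ^ 3 * w - 5 * w ^ 2 - 12 * (e * (a ^ 2 * w ^ 2)) +
        26 * E ^ 2 * a * w ^ 3 := by rw [hP, he2]; ring
      rw [this]
      linarith
    have hEpos : 0 < E := by omega
    have h3 : E * P ≤ E * (64 * a ^ 6) := by
      calc E * P ≤ E * (a ^ 6 + 4 * a ^ 3 * w + 12 * (E * (a ^ 2 * w ^ 2)) +
            26 * E ^ 2 * a * w ^ 3) := mul_le_mul_of_nonneg_left h2 hEpos.le
        _ = E * a ^ 6 + a * (26 * T ^ 3 + 12 * a * T ^ 2 + 4 * a ^ 2 * T) := by rw [hTd]; ring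
        _ ≤ E * a ^ 6 + a * (63 * V) := by
          have := mul_le_mul_of_nonneg_left c5 ha0.le
          linarith
        _ = E * (64 * a ^ 6) := by rw [hV]; ring
    exact le_of_mul_le_mul_left h3 hEpos
  have hfin := Int.le_of_dvd hPpos hdvd
  have h1 : (8 * a ^ 3) ^ 2 < (E ^ 2) ^ 2 := pow_lt_pow_left₀ hc (by positivity) (by norm_num)
  have h2 : (E ^ 2) ^ 2 = e ^ 4 := by rw [← he2]; ring
  have h3 : (8 * a ^ 3) ^ 2 = 64 * a ^ 6 := by ring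
  linarith

/-- The case `a = 2`. -/
theorem check_two : ∀ e ∈ Finset.Icc (-12 : ℤ) 12, ∀ b ∈ Finset.Icc (-8 : ℤ) 8,
    e * b ^ 3 + b = 2 - 32 * e ^ 2 → e ≠ 0 → e = 1 ∧ b = -3 := by
  decide +kernel

theorem a_two {e b : ℤ} (he : e ≠ 0) (hab : IsCoprime 2 b)
    (h : e * b ^ 3 + b = 2 - 2 ^ 5 * e ^ 2) : e = 1 ∧ b = -3 := by
  have h1 := e_sq (by norm_num) he hab h
  have h2 := sq_le (by norm_num) he hab h
  norm_num at h1 h2 h
  have h3 : |e| ≤ 12 := by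
    by_contra hc
    push Not at hc
    have h4 : (13 : ℤ) ^ 2 ≤ |e| ^ 2 := pow_le_pow_left₀ (by norm_num) (by omega) 2
    rw [sq_abs] at h4
    have h3 : (13 : ℤ) ^ 2 = 169 := by norm_num
    linarith
  have h5 : |b| ≤ 8 := by
    by_contra hc
    push Not at hc
    have h4 : (9 : ℤ) ^ 2 ≤ |b| ^ 2 := pow_le_pow_left₀ (by norm_num) (by omega) 2
    rw [sq_abs] at h4
    have h3 : (9 : ℤ) ^ 2 = 81 := by norm_num
    linarith
  rw [abs_le] at h3 h5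
  exact check_two e (Finset.mem_Icc.2 h3) b (Finset.mem_Icc.2 h5) h he

/-- The number `w`. -/
theorem w_facts {a e b : ℤ} (ha : 2 ≤ a) (he : e ≠ 0)
    (h : e * b ^ 3 + b = a - a ^ 5 * e ^ 2) :
    ∃ w, w = a ^ 5 * e + b ^ 3 ∧ e * w = a - b ∧ 1 ≤ w ∧ |e| * w ≤ a + |b| ∧
      a ^ 5 * |e| ≤ |b| ^ 3 + w := by
  have hw := ew h
  obtain ⟨w, hwd⟩ : ∃ w, w = a ^ 5 * e + b ^ 3 := ⟨_, rfl⟩
  rw [← hwd] at hw
  have hw1 : 1 ≤ w := by
    have h1 := w_pos ha he h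
    rw [← hw] at h1
    have h2 : 0 < e ^ 2 := by positivity
    have h3 : e * (e * w) = e ^ 2 * w := by ring
    rw [h3] at h1
    exact Int.pos_of_mul_pos_right h1 h2
  refine ⟨w, hwd, hw, hw1, ?_, ?_⟩
  · calc |e| * w = |e * w| := by rw [abs_mul, abs_of_pos (by omega : (0 : ℤ) < w)]
      _ = |a - b| := by rw [hw]
      _ ≤ |a| + |b| := abs_sub _ _
      _ = a + |b| := by rw [abs_of_pos (by omega : (0 : ℤ) < a)]
  · rw [← abs_pow]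
    calc a ^ 5 * |e| = |a ^ 5 * e| := by rw [abs_mul, abs_of_pos (by positivity : 0 < a ^ 5)]
      _ = |w - b ^ 3| := by congr 1; rw [hwd]; ring
      _ ≤ |w| + |b ^ 3| := abs_sub _ _
      _ = |b ^ 3| + w := by rw [abs_of_pos (by omega : (0 : ℤ) < w)]; ring

/-- For given `a` and `b` there is only one candidate for `e`. -/
theorem e_eq {a e b : ℤ} (ha : 3 ≤ a) (he : e ≠ 0) (hab : IsCoprime a b)
    (h : e * b ^ 3 + b = a - a ^ 5 * e ^ 2) : (-b ^ 3) / a ^ 5 + 1 = e := by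
  obtain ⟨w, hwd, hw, hw1, hT, -⟩ := w_facts (by omega) he h
  have hb := sq_le (by omega) he hab h
  rw [← sq_abs b] at hb
  have he1 : 1 ≤ |e| := Int.one_le_abs he
  have h1 : w ≤ a + |b| := by
    calc w = 1 * w := (one_mul w).symm
      _ ≤ |e| * w := mul_le_mul_of_nonneg_right he1 (by omega)
      _ ≤ a + |b| := hT
  have h5 : 81 * a ≤ a ^ 5 := by
    have : (3 : ℤ) ^ 4 ≤ a ^ 4 := pow_le_pow_left₀ (by norm_num) ha 4
    have h4 : (3 : ℤ) ^ 4 = 81 := by norm_num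
    nlinarith
  have h2 : w < a ^ 5 := by
    by_contra hc
    push Not at hc
    have h3 : a ^ 5 ≤ 2 * |b| := by linarith
    have h4 : (a ^ 5) ^ 2 ≤ (2 * |b|) ^ 2 := pow_le_pow_left₀ (by positivity) h3 2
    have h6 : (2 * |b|) ^ 2 = 4 * |b| ^ 2 := by ring
    have h7 : 0 < a ^ 5 := by positivity
    nlinarith
  have h3 : -b ^ 3 = (a ^ 5 - w) + a ^ 5 * (e - 1) := by rw [hwd]; ring
  rw [h3, Int.add_mul_ediv_left _ _ (by positivity : a ^ 5 ≠ 0),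
    Int.ediv_eq_zero_of_lt (by omega) (by omega)]
  ring

/-- There is no solution with `3 ≤ a ≤ 19`. -/
theorem check_small : ∀ a ∈ Finset.Icc (3 : ℤ) 19,
    ∀ b ∈ Finset.Icc (-(11 * a ^ 2 / 4)) (11 * a ^ 2 / 4),
    ((-b ^ 3) / a ^ 5 + 1) * b ^ 3 + b = a - a ^ 5 * ((-b ^ 3) / a ^ 5 + 1) ^ 2 →
      (-b ^ 3) / a ^ 5 + 1 = 0 := by
  decide +kernel

theorem a_ge {a e b : ℤ} (ha : 3 ≤ a) (he : e ≠ 0) (hab : IsCoprime a b)
    (h : e * b ^ 3 + b = a - a ^ 5 * e ^ 2) : 20 ≤ a := by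
  by_contra hc
  push Not at hc
  have h1 := e_side ha he h
  have h2 := b_cube (by omega) he h
  have h3 : 4 * |b| ≤ 11 * a ^ 2 := by
    by_contra hlt
    push Not at hlt
    have h4 : (11 * a ^ 2) ^ 6 < (4 * |b|) ^ 6 := pow_lt_pow_left₀ hlt (by positivity) (by norm_num)
    have h5 : (2 * |b| ^ 3) ^ 2 ≤ (3 * a ^ 5 * |e|) ^ 2 := pow_le_pow_left₀ (by positivity) h2 2
    have h6 : a ^ 12 * 1771561 < a ^ 12 * (73728 * a) := by
      calc a ^ 12 * 1771561 = (11 * a ^ 2) ^ 6 := by ring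
        _ < (4 * |b|) ^ 6 := h4
        _ = 1024 * (2 * |b| ^ 3) ^ 2 := by ring
        _ ≤ 1024 * (3 * a ^ 5 * |e|) ^ 2 := by linarith
        _ = 9216 * a ^ 10 * |e| ^ 2 := by ring
        _ ≤ 9216 * a ^ 10 * (8 * a ^ 3) := mul_le_mul_of_nonneg_left h1 (by positivity)
        _ = a ^ 12 * (73728 * a) := by ring
    have h7 := lt_of_mul_lt_mul_left h6 (by positivity)
    omega
  have h4 := abs_le.1 (le_refl |b|)
  have h8 := e_eq ha he hab h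
  have h9 := check_small a (Finset.mem_Icc.2 ⟨ha, by omega⟩) b
    (Finset.mem_Icc.2 ⟨by omega, by omega⟩)
  rw [h8] at h9
  exact he (h9 h)

/-- The sign of `e b`. -/
theorem eb_neg {a e b : ℤ} (ha : 2 ≤ a) (he : e ≠ 0)
    (h : e * b ^ 3 + b = a - a ^ 5 * e ^ 2) : e * b < 0 := by
  have he2 : 1 ≤ e ^ 2 := by
    have : 0 < e ^ 2 := by positivity
    omega
  have h5 : a < a ^ 5 := by
    have : a ^ 1 < a ^ 5 := pow_lt_pow_right₀ (by omega) (by norm_num)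
    simpa using this
  have h5' : a ^ 5 ≤ a ^ 5 * e ^ 2 := le_mul_of_one_le_right (by positivity) he2
  have hneg : b * (e * b ^ 2 + 1) < 0 := by
    have : b * (e * b ^ 2 + 1) = e * b ^ 3 + b := by ring
    rw [this, h]
    linarith
  rcases lt_trichotomy b 0 with hb | hb | hb
  · have h1 : 0 < e * b ^ 2 + 1 := by
      by_contra hc
      push Not at hc
      have := mul_nonneg_of_nonpos_of_nonpos hb.le hc
      linarith
    have h2 : 0 < e := by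
      by_contra hc
      push Not at hc
      have h3 : e ≤ -1 := by omega
      have h4 : 1 ≤ b ^ 2 := by nlinarith
      nlinarith
    exact mul_neg_of_pos_of_neg h2 hb
  · rw [hb, zero_mul] at hneg
    exact absurd hneg (lt_irrefl _)
  · have h1 : e * b ^ 2 + 1 < 0 := by
      by_contra hc
      push Not at hc
      have := mul_nonneg hb.le hc
      linarith
    have h2 : e < 0 := by
      by_contra hc
      push Not at hc
      have : 0 ≤ e * b ^ 2 := mul_nonneg hc (sq_nonneg b)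
      linarith
    exact mul_neg_of_neg_of_pos h2 hb

/-- Every integer solution of `x^4 - x^2 + x y + y^3 = 0` is one of seven, or `y < 0`,
`x = a^2 e` and `y = a e b` with `a`, `e`, `b` pairwise coprime, `a ≥ 20`, `|e| ≥ 4`,
`a^2 ≤ 8 |e|^3`, `a^3 ≤ 300 |e|^4` and `|e|^3 ≤ 50 a^4`. -/
theorem result (x y : ℤ) (h : x ^ 4 - x ^ 2 + x * y + y ^ 3 = 0) :
    (x, y) ∈ ({(0, 0), (1, 0), (-1, 0), (-1, 1), (-1, -1), (2, -2), (4, -6)} : Set (ℤ × ℤ)) ∨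
    (y < 0 ∧ ∃ a e b : ℤ, 20 ≤ a ∧ 4 ≤ |e| ∧ IsCoprime a e ∧ IsCoprime a b ∧ IsCoprime e b ∧
      x = a ^ 2 * e ∧ y = a * e * b ∧ a ^ 2 ≤ 8 * |e| ^ 3 ∧ a ^ 3 ≤ 300 * |e| ^ 4 ∧
      |e| ^ 3 ≤ 50 * a ^ 4) := by
  by_cases hx : x = 0
  · left
    rw [hx] at h ⊢
    have : y ^ 3 = 0 := by linarith
    have hy : y = 0 := pow_eq_zero_iff (by norm_num) |>.1 this
    rw [hy]
    simp
  obtain ⟨a, e, b, ha, he, hab, hae, hxa, hyb, h1⟩ := param x y hx h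
  rcases ha.eq_or_lt with ha1 | ha2
  · left
    subst ha1
    have := case_one he (by linarith)
    rw [hxa, hyb]
    rcases this with ⟨rfl, rfl⟩ | ⟨rfl, rfl⟩ | ⟨rfl, rfl⟩ | ⟨rfl, rfl⟩ | ⟨rfl, rfl⟩ <;> simp
  have ha2' : 2 ≤ a := ha2
  rcases ha2'.eq_or_lt with ha3 | ha3
  · left
    subst ha3
    obtain ⟨rfl, rfl⟩ := a_two he hab h1
    rw [hxa, hyb]
    simp
  right
  have ha3' : 3 ≤ a := ha3
  have ha20 := a_ge ha3' he hab h1
  have ha4 : (20 : ℤ) ^ 2 ≤ a ^ 2 := pow_le_pow_left₀ (by norm_num) ha20 2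
  have h400 : (20 : ℤ) ^ 2 = 400 := by norm_num
  have he1 : 1 ≤ |e| := Int.one_le_abs he
  have h2 : a ^ 2 ≤ a ^ 2 * |e| := le_mul_of_one_le_right (by positivity) he1
  have h3 := a_side ha2' he hab h1 (by linarith)
  have he4 : 4 ≤ |e| := by
    by_contra hc
    push Not at hc
    have h5 : |e| ^ 3 ≤ 3 ^ 3 := pow_le_pow_left₀ (by omega) (by omega) 3
    have h6 : (3 : ℤ) ^ 3 = 27 := by norm_num
    linarith
  have h1600 : 1600 ≤ a ^ 2 * |e| := by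
    calc (1600 : ℤ) = 400 * 4 := by norm_num
      _ ≤ a ^ 2 * |e| := mul_le_mul (by linarith) he4 (by norm_num) (by positivity)
  obtain ⟨w, hwd, hw, hw1, hT, hV⟩ := w_facts ha2' he h1
  refine ⟨?_, a, e, b, ha20, he4, hae, hab, ?_, hxa, hyb, h3, a_side22 ha2' he hab h1 h1600,
    Pool.Agent.H4Q.e_side6 ha20 hwd hw hw1 hT hV⟩
  · rw [hyb, mul_assoc]
    exact mul_neg_of_pos_of_neg (by omega) (eb_neg ha2' he h1)
  · -- `b = a - e w`
    have hw := ew h1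
    have hb : b = a + e * (-(a ^ 5 * e + b ^ 3)) := by linarith
    rw [hb]
    exact (hae.symm).add_mul_left_right _

end Pool.Agent.Results.MP_8bb9f5_nt.GcdRange
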