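import Pool.Agent.H98Q.Diff2

namespace Pool.Agent.Results.MP_8bb9f5_nt.PowerDifference

open H98Q

theorem small {c k : ℕ} (hk : k = 3 ∨ (Odd k ∧ 9 ≤ k)) :
    c ^ k = 0 ∨ c ^ k = 1 ∨ c ^ k = 8 ∨ 27 ≤ c ^ k := by
  have hk3 : 3 ≤ k := by omega
  rcases Nat.lt_or_ge c 3 with hc | hc
  · interval_cases c
    · left; exact zero_pow (by omega)
    · right; left; exact one_pow k
    · rcases hk with rfl | ⟨-, h9⟩
      · right; right; left; norm_num
      · right; right; right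
        calc 27 ≤ 2 ^ 9 := by norm_num
          _ ≤ 2 ^ k := Nat.pow_le_pow_right (by norm_num) h9
  · right; right; right
    calc 27 = 3 ^ 3 := by norm_num
      _ ≤ c ^ 3 := Nat.pow_le_pow_left hc 3
      _ ≤ c ^ k := Nat.pow_le_pow_right (by omega) hk3

/-- Let `x, y` be integers with `x ^ 4 - x ^ 2 + x y + y ^ 3 = 0`. If `|y - x|` is a `k`-th power
with `k = 3` or `k ≥ 9` odd, then `(x, y)` is one of `(0, 0)`, `(1, 0)`, `(-1, 0)`, `(-1, -1)`. -/
theorem result (x y : ℤ) (hE : x ^ 4 - x ^ 2 + x * y + y ^ 3 = 0) (c k : ℕ)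
    (hk : k = 3 ∨ (Odd k ∧ 9 ≤ k)) (hc : (y - x).natAbs = c ^ k) :
    (x, y) ∈ ({(0, 0), (1, 0), (-1, 0), (-1, -1)} : Set (ℤ × ℤ)) := by
  have hs := small (c := c) hk
  rw [← hc] at hs
  by_cases hx0 : x = 0
  · subst hx0
    have hy : y = 0 := by
      have : y ^ 3 = 0 := by linear_combination hE
      exact pow_eq_zero_iff (by norm_num) |>.mp this
    subst hy
    simp
  · rcases cases x y hx0 hE with ⟨rfl, h | h | h⟩ | ⟨b, M, N, h, hx, hy, hg⟩ |
      ⟨b, M, N, h, hx, hy, hg⟩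
    · subst h; simp_all
    · subst h; simp_all
    · subst h; simp_all
    · rcases h.fin (h.diff hx hy hk hc) hx hy with ⟨h2, h3⟩ | ⟨h2, h3⟩ | ⟨h2, h3⟩
      · rw [h2, h3]; simp
      · rw [h2, h3] at hs; norm_num at hs
      · rw [h2, h3] at hs; norm_num at hs
    · exact (h.fin (h.diff hx hy hk hc)).elim

end Pool.Agent.Results.MP_8bb9f5_nt.PowerDifference
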