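import Pool.Agent.H98Q.ThreeY

namespace Pool.Agent.Results.MP_8bb9f5_nt.ThreeGcds

open H98Q

theorem result :
    (∀ x y : ℤ, x ^ 4 - x ^ 2 + x * y + y ^ 3 = 0 →
      |y| = (Int.gcd (x - 1) y : ℤ) * (Int.gcd x y : ℤ) * (Int.gcd (x + 1) y : ℤ) ∧
      (y ≠ 0 → |x| ≤ 1732 * (Int.gcd (x - 1) y : ℤ) ^ 6 ∧
        |x| ≤ 1732 * (Int.gcd (x + 1) y : ℤ) ^ 6)) ∧
    (∀ x y : ℤ, x ^ 4 - x ^ 2 + x * y + y ^ 3 = 0 →
      (Int.gcd (x - 1) y = 1 ∨ Int.gcd (x + 1) y = 1 ∨
        y.natAbs.primeFactors.card ≤ 3 ∨ (y - x).natAbs.primeFactors.card ≤ 2 ∨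
        (∃ p k : ℕ, p.Prime ∧ ((x - 1).natAbs = p ^ k ∨ (x + 1).natAbs = p ^ k)) ∨
        (∃ c k : ℕ, 2 ≤ k ∧ y.natAbs = c ^ k) ∨
        (∃ c : ℤ, x = c ^ 3)) →
      (x, y) ∈ ({(0, 0), (1, 0), (-1, 0), (-1, 1), (-1, -1), (2, -2), (4, -6)} :
        Set (ℤ × ℤ))) := by
  constructor
  · intro x y hE
    by_cases hx0 : x = 0
    · subst hx0
      have hy : y = 0 := by
        have : y ^ 3 = 0 := by linear_combination hE
        exact pow_eq_zero_iff (by norm_num) |>.mp this
      subst hy
      simp
    · rcases cases x y hx0 hE with ⟨rfl, h | h | h⟩ | ⟨b, M, N, h, hx, hy, hg⟩ |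
        ⟨b, M, N, h, hx, hy, hg⟩
      · subst h; norm_num
      · subst h; norm_num
      · subst h; norm_num
      · have hb := h.hb
        have hM := h.hM
        have hA := h.A0
        rcases eq_or_lt_of_le hb with hb1 | hb1
        · subst hb1
          obtain ⟨hN, hM1 | hM1⟩ := h.bone
          · subst hN hM1
            norm_num at hx hy
            subst hx hy
            norm_num
          · subst hN hM1
            norm_num at hx hy
            subst hx hy
            norm_num
        · have hR := h.toR (by omega)
          have hf := hR.fac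
          have hbd := hR.bounds4
          rw [P.gm hx hy, P.gp hx hy, hg]
          have hxa : |x| = M * b ^ 2 := by
            rw [hx, abs_of_nonneg (by positivity)]; ring
          rw [hxa]
          refine ⟨?_, fun _ => ⟨hbd.1, hbd.2⟩⟩
          rw [hy, abs_neg, abs_of_nonneg (by positivity)]
          linear_combination -(b * M) * hf
      · have hb := h.hb
        have hM := h.hM
        have hN := h.hN
        rcases eq_or_lt_of_le hb with hb1 | hb1
        · subst hb1
          exact (h.bone).elim
        · have hR := h.toR (by omega)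
          have hf := hR.fac
          have hbd := hR.bounds4
          rw [Q.gm hx hy, Q.gp hx hy, hg]
          have hxa : |x| = M * b ^ 2 := by
            rw [hx, abs_neg, abs_of_nonneg (by positivity)]; ring
          rw [hxa]
          refine ⟨?_, fun _ => ⟨hbd.2, hbd.1⟩⟩
          rw [hy, abs_neg, abs_of_nonneg (by positivity)]
          linear_combination -(b * M) * hf
  · intro x y hE hor
    by_cases hx0 : x = 0
    · subst hx0
      have hy : y = 0 := by
        have : y ^ 3 = 0 := by linear_combination hE
        exact pow_eq_zero_iff (by norm_num) |>.mp this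
      subst hy
      simp
    · rcases cases x y hx0 hE with ⟨rfl, h | h | h⟩ | ⟨b, M, N, h, hx, hy, hg⟩ |
        ⟨b, M, N, h, hx, hy, hg⟩
      · subst h; simp
      · subst h; simp
      · subst h; simp
      · have hb := h.hb
        have hM := h.hM
        have h1 : b = 1 ∨ M = 1 := by
          rcases eq_or_lt_of_le hb with hb1 | hb1
          · left; exact hb1.symm
          · have hR := h.toR (by omega)
            have hbd := hR.bounds
            rcases hor with hg1 | hg1 | ho | ho |
                ⟨p, k, hp, hpk⟩ | ⟨c, k, hk, hc⟩ | ⟨c, hc⟩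
            · rw [P.gm hx hy] at hg1
              have h2 := hbd.1.2 hg1
              exact h.small h2.1 h2.2
            · rw [P.gp hx hy] at hg1
              have h2 := hbd.2.2 hg1
              exact h.small h2.1 h2.2
            · exact h.threeY hy ho
            · exact h.omega hx hy (Or.inr (Or.inr ho))
            · exact h.xpm hp hx hpk
            · obtain ⟨i, rfl⟩ := Nat.exists_eq_add_of_le' hk
              exact h.ypow hy hc
            · right; exact h.cube (by rw [← hx]; exact hc)
        rcases h.fin h1 hx hy with ⟨h2, h3⟩ | ⟨h2, h3⟩ | ⟨h2, h3⟩ <;>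
          (rw [h2, h3]; simp)
      · exfalso
        have hb := h.hb
        have hM := h.hM
        have h1 : b = 1 ∨ M = 1 := by
          rcases eq_or_lt_of_le hb with hb1 | hb1
          · left; exact hb1.symm
          · have hR := h.toR (by omega)
            have hbd := hR.bounds
            rcases hor with hg1 | hg1 | ho | ho |
                ⟨p, k, hp, hpk⟩ | ⟨c, k, hk, hc⟩ | ⟨c, hc⟩
            · rw [Q.gm hx hy] at hg1
              have h2 := hbd.2.2 hg1
              exact h.small h2.1 h2.2
            · rw [Q.gp hx hy] at hg1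
              have h2 := hbd.1.2 hg1
              exact h.small h2.1 h2.2
            · exact h.threeY hy ho
            · exact h.omega hx hy (Or.inr (Or.inr ho))
            · exact h.xpm hp hx hpk
            · obtain ⟨i, rfl⟩ := Nat.exists_eq_add_of_le' hk
              exact (h.ypow hy hc).elim
            · exact (h.cube (c := -c) (by
                have : -(b ^ 2 * M) = c ^ 3 := by rw [← hx]; exact hc
                linear_combination -this)).elim
        exact h.fin h1

end Pool.Agent.Results.MP_8bb9f5_nt.ThreeGcds
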